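import Mathlib
import Pool.Agent.helper80.RSV.Defs

set_option autoImplicit false

/-!
# Elements of order `p` centralise an abelian normal subgroup of exponent `p`

If the nilpotent subgroups are abelian (`ZP`).  The conjugation `Y` by `y` satisfies `(Y - 1)^p = Y^p - 1 = 0` on `B`.
-/

namespace Pool.Agent.helper51.RN

open Pool.Agent.helper80.RSV
open scoped commutatorElement

theorem p_centralises {G : Type} [Group G] (hZ : ∀ K : Subgroup G, ZP K) {B : Subgroup G} (hBn : B.Normal)
    (hB : AbSub B) {p : ℕ} (hp : p.Prime) (hBp : ∀ x ∈ B, x ^ p = 1) {y : G} (hy : y ^ p = 1) :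
    ∀ x ∈ B, x * y = y * x := by
  classical
  letI : CommGroup B :=
    { (inferInstance : Group B) with mul_comm := fun a b => Subtype.ext (hB a a.2 b b.2) }
  have hBn' := hBn
  let Y : AddMonoid.End (Additive B) := MonoidHom.toAdditive (MulAut.conjNormal y).toMonoidHom
  have mulapp : ∀ (f g : AddMonoid.End (Additive B)) (a : Additive B), (f * g) a = f (g a) := fun _ _ _ => rfl
  have hY : ∀ b : B, Y (Additive.ofMul b) = Additive.ofMul (MulAut.conjNormal y b) := fun b => rfl
  have hYn : ∀ (n : ℕ) (b : B), (Y ^ n) (Additive.ofMul b) = Additive.ofMul (MulAut.conjNormal (y ^ n) b) := by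
    intro n
    induction n with
    | zero => intro b; simp
    | succ n ih =>
      intro b
      rw [pow_succ', mulapp, ih, hY, pow_succ', map_mul]
      rfl
  have hYp : Y ^ p = 1 := by
    ext b
    have h := hYn p (Additive.toMul b)
    rw [hy] at h
    rw [show b = Additive.ofMul (Additive.toMul b) from rfl, h]
    simp
  have hp0 : ((p : ℕ) : AddMonoid.End (Additive B)) = 0 := by
    ext b
    have h : (Additive.toMul b) ^ p = 1 := Subtype.ext (hBp _ (Additive.toMul b).2)
    have h2 : p • b = 0 := by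
      have h3 : p • b = Additive.ofMul ((Additive.toMul b) ^ p) := rfl
      rw [h3, h]
      rfl
    rw [AddMonoid.End.natCast_apply, h2]
    rfl
  have hD : (Y + -1) ^ p = 0 := by
    obtain ⟨r, hr⟩ := (Commute.neg_one_right Y).exists_add_pow_prime_eq hp
    rw [hr, hYp, hp0]
    rcases hp.eq_two_or_odd' with h2 | hodd
    · rw [h2] at hp0 ⊢
      have h3 : (1 : AddMonoid.End (Additive B)) + 1 = 0 := by
        have h4 : ((2 : ℕ) : AddMonoid.End (Additive B)) = 1 + 1 := by norm_num
        rw [← h4]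
        exact hp0
      simp [h3]
    · rw [hodd.neg_one_pow]
      simp
  intro x hx
  by_contra hne
  have hDx : (Y + -1) (Additive.ofMul (⟨x, hx⟩ : B)) ≠ 0 := by
    intro h
    apply hne
    have h1 : Y (Additive.ofMul (⟨x, hx⟩ : B)) + -(Additive.ofMul (⟨x, hx⟩ : B)) = 0 := h
    rw [add_neg_eq_zero, hY] at h1
    have h2 : MulAut.conjNormal y (⟨x, hx⟩ : B) = ⟨x, hx⟩ := h1
    have h3 : y * x * y⁻¹ = x := by
      have h4 := congrArg (Subtype.val) h2
      simpa using h4
    calc x * y = (y * x * y⁻¹) * y := by rw [h3]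
      _ = y * x := by group
  obtain ⟨k, hk, hmin⟩ : ∃ k : ℕ, ((Y + -1 : AddMonoid.End (Additive B)) ^ k) (Additive.ofMul (⟨x, hx⟩ : B)) = 0 ∧
      ∀ j : ℕ, j < k → ((Y + -1 : AddMonoid.End (Additive B)) ^ j) (Additive.ofMul (⟨x, hx⟩ : B)) ≠ 0 := by
    have hex : ∃ k : ℕ, ((Y + -1 : AddMonoid.End (Additive B)) ^ k) (Additive.ofMul (⟨x, hx⟩ : B)) = 0 := ⟨p, by rw [hD]; rfl⟩
    exact ⟨Nat.find hex, Nat.find_spec hex, fun j hj => Nat.find_min hex hj⟩
  have hk2 : 2 ≤ k := by
    by_contra hlt
    have h01 : k = 0 ∨ k = 1 := by omega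
    rcases h01 with rfl | rfl
    · rw [pow_zero] at hk
      have h1 : Additive.ofMul (⟨x, hx⟩ : B) = 0 := hk
      rw [h1, map_zero] at hDx
      exact hDx rfl
    · rw [pow_one] at hk
      exact hDx hk
  obtain ⟨l, rfl⟩ : ∃ l, k = l + 2 := ⟨k - 2, by omega⟩
  obtain ⟨m, hm⟩ : ∃ m : B, Additive.ofMul m = ((Y + -1 : AddMonoid.End (Additive B)) ^ l) (Additive.ofMul (⟨x, hx⟩ : B)) := ⟨_, rfl⟩
  have hm1 : (Y + -1) (Additive.ofMul m) ≠ 0 := by
    have h1 := hmin (l + 1) (by omega)
    rw [pow_succ', mulapp, ← hm] at h1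
    exact h1
  have hm2 : (Y + -1) ((Y + -1) (Additive.ofMul m)) = 0 := by
    rw [pow_succ', pow_succ', mulapp, mulapp, ← hm] at hk
    exact hk
  obtain ⟨z, hz⟩ : ∃ z : B, Additive.ofMul z = (Y + -1) (Additive.ofMul m) := ⟨_, rfl⟩
  have hzv : (z : G) = y * m * y⁻¹ * (m : G)⁻¹ := by
    have h1 : Additive.ofMul z = Y (Additive.ofMul m) + -(Additive.ofMul m) := hz
    rw [hY] at h1
    have h2 : z = MulAut.conjNormal y m * m⁻¹ := h1
    rw [h2]
    simp
  have hz1 : z ≠ 1 := by
    rintro rfl
    exact hm1 hz.symm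
  have hzy : y * (z : G) = z * y := by
    rw [← hz] at hm2
    have h1 : Y (Additive.ofMul z) + -(Additive.ofMul z) = 0 := hm2
    rw [add_neg_eq_zero, hY] at h1
    have h2 : MulAut.conjNormal y z = z := h1
    have h3 : y * (z : G) * y⁻¹ = z := by
      have h4 := congrArg (Subtype.val) h2
      simpa using h4
    calc y * (z : G) = (y * (z : G) * y⁻¹) * y := by group
      _ = z * y := by rw [h3]
  have hzm : (m : G) * z = z * m := hB _ m.2 _ z.2
  -- inside the whole group
  have key := hZ ⊤ ((Subgroup.closure {y, (m : G)}).comap (⊤ : Subgroup G).subtype)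
    ⟨z, Subgroup.mem_top _⟩ ?_ ?_
  · apply hz1
    have h1 := congrArg (fun g : (⊤ : Subgroup G) => (g : G)) key
    exact Subtype.ext h1
  · have h1 : (⟨z, Subgroup.mem_top _⟩ : (⊤ : Subgroup G)) =
        ⁅(⟨y, Subgroup.mem_top _⟩ : (⊤ : Subgroup G)), (⟨m, Subgroup.mem_top _⟩ : (⊤ : Subgroup G))⁆ := by
      apply Subtype.ext
      rw [commutatorElement_def]
      exact hzv
    rw [h1]
    refine Subgroup.commutator_mem_commutator ?_ ?_
    · rw [Subgroup.mem_comap]
      exact Subgroup.subset_closure (by simp)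
    · rw [Subgroup.mem_comap]
      exact Subgroup.subset_closure (by simp)
  · intro g hg
    rw [Subgroup.mem_comap] at hg
    have h1 : Subgroup.closure {y, (m : G)} ≤ Subgroup.centralizer {(z : G)} := by
      rw [Subgroup.closure_le]
      intro t ht
      rw [Set.mem_insert_iff, Set.mem_singleton_iff] at ht
      rw [SetLike.mem_coe, Subgroup.mem_centralizer_singleton_iff]
      rcases ht with rfl | rfl
      · exact hzy
      · exact hzm
    have h2 := h1 hg
    rw [Subgroup.mem_centralizer_singleton_iff] at h2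
    exact Subtype.ext h2

end Pool.Agent.helper51.RN
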